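import Mathlib
import Pool.Agent.H27.LinSubst

set_option autoImplicit false

namespace Pool.Agent.Results.MP_46a474_nt.Counter

theorem result (N : ℕ) :
    ∃ (F : Type) (_ : Field F) (_ : Fintype F) (f : MvPolynomial (Fin 2) F),
      Irreducible f ∧ f.totalDegree = 4 ∧ f.totalDegree ^ 4 < Fintype.card F ∧
      N < Fintype.card F ∧
      ∀ a b : F, ¬ Irreducible
        (MvPolynomial.aeval ![Polynomial.C a * Polynomial.X + Polynomial.C b, Polynomial.X] f :
          Polynomial F) := by
  classical
  let F := GaloisField 2 (2 * (N + 5))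
  letI : Fintype F := Fintype.ofFinite F
  have hc : Fintype.card F = 2 ^ (2 * (N + 5)) := by
    rw [← Nat.card_eq_fintype_card]
    exact GaloisField.card 2 _ (by omega)
  refine ⟨F, inferInstance, inferInstance, MvPolynomial.X 0 + MvPolynomial.X 1 ^ 4,
    Pool.Agent.H27.LinSubst.irred F, Pool.Agent.H27.LinSubst.tdeg F, ?_, ?_, ?_⟩
  · rw [Pool.Agent.H27.LinSubst.tdeg, hc]
    calc 4 ^ 4 < 2 ^ 10 := by norm_num
      _ ≤ 2 ^ (2 * (N + 5)) := Nat.pow_le_pow_right (by norm_num) (by omega)
  · rw [hc]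
    exact lt_of_le_of_lt (by omega) Nat.lt_two_pow_self
  · intro a b
    have := Pool.Agent.H27.LinSubst.not_irred (N + 5) F hc a b
    simpa using this

end Pool.Agent.Results.MP_46a474_nt.Counter
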